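import Pool.Agent.KS6_22.CT.Count

open Equiv Finset Filter Topology
open scoped Pointwise Nat

namespace KS6_22_CT

lemma isCT_lift_swap (N : ℕ) [NeZero N] (a b : Fin N) :
    IsCT N ((a : ℕ) : ℤ) ((b : ℕ) : ℤ) (lift N (swap a b)) := by
  intro x
  obtain ⟨m, r, rfl⟩ := exists_rep N x
  rw [lift_apply, rep_mod]
  by_cases h1 : r = a
  · subst h1
    simp
  · have h1' : ((r : ℕ) : ℤ) ≠ ((a : ℕ) : ℤ) := fun h => h1 (Fin.ext (by exact_mod_cast h))
    rw [if_neg h1']
    by_cases h2 : r = b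
    · subst h2
      simp only [swap_apply_right, if_true]
      ring
    · have h2' : ((r : ℕ) : ℤ) ≠ ((b : ℕ) : ℤ) := fun h => h2 (Fin.ext (by exact_mod_cast h))
      rw [if_neg h2', swap_apply_of_ne_of_ne h1 h2]

lemma swap_gen (N : ℕ) [NeZero N] (a b : Fin N) (hab : a ≠ b) :
    ∃ i j : ℤ, 0 ≤ i ∧ i < j ∧ j < N ∧ IsCT N i j (lift N (swap a b)) := by
  rcases lt_or_gt_of_ne hab with h | h
  · exact ⟨a, b, by positivity, by exact_mod_cast h, by exact_mod_cast b.2, isCT_lift_swap N a b⟩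
  · refine ⟨b, a, by positivity, by exact_mod_cast h, by exact_mod_cast a.2, ?_⟩
    rw [swap_comm]
    exact isCT_lift_swap N b a

lemma gen_mem_H {N : ℕ} {τ : Perm ℤ} (h : ∃ i j : ℤ, 0 ≤ i ∧ i < j ∧ j < N ∧ IsCT N i j τ) :
    τ ∈ H := by
  obtain ⟨i, j, h0, h1, h2, h3⟩ := h
  exact ⟨N, i, j, by omega, h0, h1, h2, h3⟩

lemma swaps (N : ℕ) : ∀ (m : ℕ) (σ : Perm (Fin N)), (∀ i : Fin N, m ≤ (i : ℕ) → σ i = i) →
    ∃ l : List (Perm (Fin N)), l.length ≤ m - 1 ∧ (∀ t ∈ l, ∃ a b, a ≠ b ∧ t = swap a b) ∧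
      l.prod = σ := by
  intro m
  induction m with
  | zero =>
    intro σ h
    refine ⟨[], by simp, by simp, ?_⟩
    ext i
    rw [h i (Nat.zero_le _)]
    simp
  | succ m ih =>
    intro σ h
    by_cases hm : m < N
    · by_cases hp : σ ⟨m, hm⟩ = ⟨m, hm⟩
      · obtain ⟨l, h1, h2, h3⟩ := ih σ (by
          intro i hi
          rcases Nat.lt_or_ge m i with h5 | h5
          · exact h i h5
          · have : i = ⟨m, hm⟩ := Fin.ext (by simp; omega)
            rw [this, hp])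
        exact ⟨l, by omega, h2, h3⟩
      · have hm1 : 1 ≤ m := by
          by_contra hcon
          have hm0 : m = 0 := by omega
          subst hm0
          apply hp
          by_contra hne
          have h6 : (0 : ℕ) + 1 ≤ ((σ ⟨0, hm⟩ : Fin N) : ℕ) := by
            rcases Nat.eq_zero_or_pos ((σ ⟨0, hm⟩ : Fin N) : ℕ) with h7 | h7
            · exact absurd (Fin.ext h7) hne
            · omega
          exact hne (σ.injective (h _ h6))
        obtain ⟨l, h1, h2, h3⟩ := ih (swap (σ ⟨m, hm⟩) ⟨m, hm⟩ * σ) (by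
          intro i hi
          rw [Perm.mul_apply]
          rcases Nat.lt_or_ge m i with h5 | h5
          · rw [h i h5]
            apply swap_apply_of_ne_of_ne
            · intro hcon
              have h8 := h i h5
              rw [hcon] at h8
              have h9 := σ.injective h8
              rw [h9] at hcon
              rw [hcon] at h5
              simp at h5
            · intro hcon
              rw [hcon] at h5
              simp at h5
          · have : i = ⟨m, hm⟩ := Fin.ext (by simp; omega)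
            rw [this, swap_apply_left])
        refine ⟨swap (σ ⟨m, hm⟩) ⟨m, hm⟩ :: l, ?_, ?_, ?_⟩
        · rw [List.length_cons]
          omega
        · intro t ht
          rcases List.mem_cons.1 ht with h5 | h5
          · exact ⟨_, _, hp, h5⟩
          · exact h2 t h5
        · rw [List.prod_cons, h3, ← mul_assoc, swap_mul_self, one_mul]
    · obtain ⟨l, h1, h2, h3⟩ := ih σ (fun i hi => absurd i.2 (by omega))
      exact ⟨l, by omega, h2, h3⟩

lemma lift_facts (N : ℕ) [NeZero N] (σ : Perm (Fin N)) :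
    lift N σ ∈ CT N ∧ IsProd (N - 1) (lift N σ) := by
  obtain ⟨l, h1, h2, h3⟩ := swaps N N σ (fun i hi => absurd i.2 (by omega))
  have h4 : lift N σ = (l.map (lift N)).prod := by
    rw [← h3, map_list_prod]
  have h5 : ∀ t ∈ l.map (lift N), ∃ i j : ℤ, 0 ≤ i ∧ i < j ∧ j < N ∧ IsCT N i j t := by
    intro t ht
    obtain ⟨s, hs, rfl⟩ := List.mem_map.1 ht
    obtain ⟨a, b, hab, rfl⟩ := h2 s hs
    exact swap_gen N a b hab
  constructor
  · rw [h4]
    exact Subgroup.list_prod_mem _ (fun t ht => Subgroup.subset_closure (h5 t ht))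
  · exact ⟨l.map (lift N), by simpa using h1, fun t ht => gen_mem_H (h5 t ht), h4.symm⟩

lemma CT_eq (N : ℕ) [NeZero N] : CT N = (lift N).range := by
  apply le_antisymm
  · unfold CT
    rw [Subgroup.closure_le]
    rintro τ ⟨i, j, h0, h1, h2, h3⟩
    lift i to ℕ using h0
    lift j to ℕ using (by omega)
    have hi : i < N := by omega
    have hj : j < N := by omega
    refine ⟨swap ⟨i, hi⟩ ⟨j, hj⟩, ?_⟩
    exact IsCT.unique (isCT_lift_swap N ⟨i, hi⟩ ⟨j, hj⟩) h3
  · rintro _ ⟨σ, rfl⟩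
    exact (lift_facts N σ).1

lemma ncard_eq (N n : ℕ) [NeZero N] :
    {g | g ∈ CT N ∧ IsProd n g}.ncard = {σ : Perm (Fin N) | IsProd n (lift N σ)}.ncard := by
  have : {g | g ∈ CT N ∧ IsProd n g} = lift N '' {σ : Perm (Fin N) | IsProd n (lift N σ)} := by
    ext g
    simp only [Set.mem_ofPred_eq, Set.mem_image]
    constructor
    · rintro ⟨h1, h2⟩
      rw [CT_eq] at h1
      obtain ⟨σ, rfl⟩ := h1
      exact ⟨σ, h2, rfl⟩
    · rintro ⟨σ, h, rfl⟩
      exact ⟨(lift_facts N σ).1, h⟩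
  rw [this, Set.ncard_image_of_injective _ (lift_injective N)]

lemma card_CT (N : ℕ) [NeZero N] : Nat.card (CT N) = N ! := by
  rw [CT_eq, Nat.card_congr (MonoidHom.ofInjective (lift_injective N)).symm.toEquiv,
    Nat.card_eq_fintype_card, Fintype.card_perm, Fintype.card_fin]

lemma lower (N n K ρ : ℕ) [NeZero N] (hK : 1 ≤ K) (hρ : ρ ≤ N) (hc : 4 * n * N < (ρ + 1) * K)
    (M : ℕ) (hM : (K ^ 3) ^ n * M ≤ (N - ρ)!) :
    {g | g ∈ CT N ∧ IsProd n g}.ncard * M ≤ N ! := by
  rw [ncard_eq]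
  calc _ ≤ ((N.choose ρ * ρ !) * (K ^ 3) ^ n) * M := by gcongr; exact count N n K ρ hK hρ hc
    _ = (N.choose ρ * ρ !) * ((K ^ 3) ^ n * M) := by ring
    _ ≤ (N.choose ρ * ρ !) * (N - ρ)! := by gcongr
    _ = N ! := Nat.choose_mul_factorial_mul_factorial hρ

lemma exists_long (N n : ℕ) (hN : 2 ≤ N) (h : 22 * n ≤ N) : ∃ g ∈ CT N, ¬ IsProd n g := by
  haveI : NeZero N := ⟨by omega⟩
  rcases Nat.eq_zero_or_pos n with h0 | h0
  · subst h0
    have hab : (⟨0, by omega⟩ : Fin N) ≠ ⟨1, by omega⟩ := by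
      intro hcon
      simp at hcon
    refine ⟨lift N (swap ⟨0, by omega⟩ ⟨1, by omega⟩), (lift_facts N _).1, ?_⟩
    rintro ⟨l, hl, -, hp⟩
    have : l = [] := List.eq_nil_of_length_eq_zero (by omega)
    rw [this] at hp
    have h1 : lift N 1 = lift N (swap ⟨0, by omega⟩ ⟨1, by omega⟩) := by
      rw [map_one]
      exact hp
    have h2 := lift_injective N h1
    have h3 := congrArg (fun σ : Perm (Fin N) => σ ⟨0, by omega⟩) h2
    simp only [Perm.coe_one, id_eq, swap_apply_left] at h3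
    exact hab h3
  · have h1 := lower N n (8 * n) (N / 2) (by omega) (by omega) (by
      have : N < 2 * (N / 2 + 1) := by omega
      nlinarith) 2 (by
      have h2 : 8 * n ≤ N - N / 2 := by omega
      have h3 := Nat.factorial_mul_pow_sub_le_factorial h2
      have h4 : 2 ≤ (8 * n)! := by
        have : (2)! ≤ (8 * n)! := Nat.factorial_le (by omega)
        simpa using this
      calc ((8 * n) ^ 3) ^ n * 2 = 2 * (8 * n) ^ (3 * n) := by rw [← pow_mul, mul_comm]
        _ ≤ (8 * n)! * (8 * n) ^ (N - N / 2 - 8 * n) := by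
          gcongr
          · omega
          · omega
        _ ≤ (N - N / 2)! := h3)
    by_contra hcon
    push Not at hcon
    have h2 : {g | g ∈ CT N ∧ IsProd n g} = (CT N : Set (Perm ℤ)) := by
      ext g
      simp only [Set.mem_ofPred_eq, SetLike.mem_coe]
      exact ⟨fun h => h.1, fun h => ⟨h, hcon g h⟩⟩
    rw [h2] at h1
    have h3 : (CT N : Set (Perm ℤ)).ncard = N ! := by
      rw [← card_CT N]
      rfl
    rw [h3] at h1
    have := Nat.factorial_pos N
    omega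

lemma almost_all' (c : ℝ) (hc0 : 0 ≤ c) (hc : c < 1 / 3) :
    ∀ᶠ N : ℕ in atTop, {g | g ∈ CT N ∧ IsProd ⌊c * N⌋₊ g}.ncard * 2 ^ N ≤ N ! := by
  obtain ⟨q, hq⟩ := exists_nat_gt (6 / (1 - 3 * c))
  obtain ⟨d, hd⟩ := exists_nat_gt (2 / (1 - 3 * c))
  have hc' : 0 < 1 - 3 * c := by linarith
  rw [div_lt_iff₀ hc'] at hq hd
  have hq1 : 1 ≤ q := by
    rcases Nat.eq_zero_or_pos q with h | h
    · subst h; norm_num at hq
    · exact h
  have hd1 : 1 ≤ d := by
    rcases Nat.eq_zero_or_pos d with h | h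
    · subst h; norm_num at hd
    · exact h
  filter_upwards [eventually_ge_atTop (q * ((4 * q ^ 2) ^ d + 1))] with N hN
  have hNq : q ≤ N := le_trans (Nat.le_mul_of_pos_right _ (by positivity)) hN
  haveI : NeZero N := ⟨by omega⟩
  set n := ⌊c * (N : ℝ)⌋₊ with hn
  set s := N / q with hs
  set ρ := 4 * n / q with hρ
  have hqpos : (0 : ℝ) < q := by exact_mod_cast hq1
  have hNpos : (0 : ℝ) < N := by
    have : 0 < N := by omega
    exact_mod_cast this
  have hs1 : (4 * q ^ 2) ^ d ≤ s := by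
    rw [hs, Nat.le_div_iff_mul_le (by omega)]
    nlinarith
  have hspos : 1 ≤ s := le_trans (Nat.one_le_pow _ _ (by positivity)) hs1
  have hnc : (n : ℝ) ≤ c * N := Nat.floor_le (by positivity)
  have hn3r : (3 : ℝ) * n ≤ N := by nlinarith
  have hn3 : 3 * n ≤ N := by exact_mod_cast hn3r
  have hρr : (ρ : ℝ) ≤ 4 * n / q := by
    have := @Nat.cast_div_le ℝ _ _ _ (4 * n) q
    rw [hρ]
    refine this.trans ?_
    push_cast
    exact le_rfl
  have hsr : (s : ℝ) ≤ N / q := by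
    rw [hs]
    exact Nat.cast_div_le
  have hq3 : 3 / (q : ℝ) ≤ (1 - 3 * c) / 2 := by
    rw [div_le_div_iff₀ hqpos (by norm_num)]
    linarith
  have hρ2 : (ρ : ℝ) ≤ 2 * (N / q) := by
    refine hρr.trans ?_
    rw [div_le_iff₀ hqpos]
    have : 2 * ((N : ℝ) / q) * q = 2 * N := by field_simp
    rw [this]
    linarith
  have e1 : (N : ℝ) * ((1 - 3 * c) / 2) ≤ (N : ℝ) - ρ - s - 3 * n := by
    have h1 : 3 * ((N : ℝ) / q) ≤ N * ((1 - 3 * c) / 2) := by
      have : 3 * ((N : ℝ) / q) = N * (3 / q) := by ring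
      rw [this]
      gcongr
    nlinarith
  have hmain : (N : ℝ) ≤ ((N : ℝ) - ρ - s - 3 * n) * d := by
    have hd0 : (0 : ℝ) ≤ d := by positivity
    calc (N : ℝ) = N * 1 := by ring
      _ ≤ N * (((1 - 3 * c) / 2) * d) := by
        gcongr
        linarith
      _ = (N * ((1 - 3 * c) / 2)) * d := by ring
      _ ≤ _ := by gcongr
  have hsum : ρ + s + 3 * n ≤ N := by
    have : ((ρ + s + 3 * n : ℕ) : ℝ) ≤ N := by
      push_cast
      have : 0 ≤ (N : ℝ) * ((1 - 3 * c) / 2) := by positivity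
      linarith
    exact_mod_cast this
  obtain ⟨a, ha⟩ := Nat.exists_eq_add_of_le hsum
  have hNa : N ≤ a * d := by
    have h1 : (N : ℝ) = ρ + s + 3 * n + a := by exact_mod_cast ha
    have h2 : (N : ℝ) ≤ a * d := by
      refine hmain.trans (le_of_eq ?_)
      rw [h1]
      ring
    exact_mod_cast h2
  apply lower N n (q * N) ρ (Nat.mul_pos hq1 (by omega)) (by omega)
  · have h1 : 4 * n < q * (ρ + 1) := Nat.lt_mul_div_succ _ (by omega)
    calc 4 * n * N < q * (ρ + 1) * N := Nat.mul_lt_mul_of_pos_right h1 (by omega)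
      _ = (ρ + 1) * (q * N) := by ring
  · have h2 : s ≤ N - ρ := by omega
    have h3 := Nat.factorial_mul_pow_sub_le_factorial h2
    refine le_trans ?_ h3
    have h4 : N - ρ - s = 3 * n + a := by omega
    rw [h4, pow_add]
    have h5 : (4 * q ^ 2) ^ N ≤ s ^ a := by
      calc (4 * q ^ 2) ^ N ≤ (4 * q ^ 2) ^ (a * d) := Nat.pow_le_pow_right (by positivity) hNa
        _ = ((4 * q ^ 2) ^ d) ^ a := by rw [← pow_mul, mul_comm a d]
        _ ≤ s ^ a := Nat.pow_le_pow_left hs1 a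
    have h6 : N ≤ 2 * q * s := by
      have : N < q * (s + 1) := Nat.lt_mul_div_succ _ (by omega)
      nlinarith
    calc ((q * N) ^ 3) ^ n * 2 ^ N = (q * N) ^ (3 * n) * 2 ^ N := by rw [← pow_mul]
      _ ≤ (q * (2 * q * s)) ^ (3 * n) * 2 ^ N := by gcongr
      _ = (s ^ (3 * n) * (2 * q ^ 2) ^ (3 * n)) * 2 ^ N := by
        rw [← mul_pow]
        congr 2
        ring
      _ ≤ (s ^ (3 * n) * (2 * q ^ 2) ^ N) * 2 ^ N := by
        gcongr
        · have : 1 ≤ q ^ 2 := Nat.one_le_pow _ _ hq1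
          omega
      _ = s ^ (3 * n) * (4 * q ^ 2) ^ N := by
        rw [mul_assoc, ← mul_pow]
        congr 2
        ring
      _ ≤ s ^ (3 * n) * s ^ a := by gcongr
      _ = 1 * (s ^ (3 * n) * s ^ a) := by ring
      _ ≤ s ! * (s ^ (3 * n) * s ^ a) := by
        gcongr
        exact Nat.factorial_pos s

lemma almost_all (c : ℝ) (hc : c < 1 / 3) :
    ∀ᶠ N : ℕ in atTop, {g | g ∈ CT N ∧ IsProd ⌊c * N⌋₊ g}.ncard * 2 ^ N ≤ N ! := by
  rcases le_or_gt 0 c with h | h
  · exact almost_all' c h hc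
  · filter_upwards [almost_all' 0 le_rfl (by norm_num)] with N hN
    have e : ⌊c * (N : ℝ)⌋₊ = ⌊0 * (N : ℝ)⌋₊ := by
      rw [zero_mul, Nat.floor_zero]
      apply Nat.floor_of_nonpos
      have : (0 : ℝ) ≤ N := by positivity
      nlinarith
    rw [e]
    exact hN

end KS6_22_CT

namespace Pool.Agent.Results.MP_9704e3_al.LinearGrowth

open KS6_22_CT

/-- **The `H`-diameter of `CT_N` grows linearly.** -/
theorem result :
    (∀ N : ℕ, 1 ≤ N → Nat.card (CT N) = N ! ∧ ∀ g ∈ CT N, IsProd (N - 1) g) ∧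
    (∀ N n : ℕ, 2 ≤ N → 22 * n ≤ N → ∃ g ∈ CT N, ¬ IsProd n g) ∧
    (∀ c : ℝ, c < 1 / 3 →
      ∀ᶠ N : ℕ in atTop, {g | g ∈ CT N ∧ IsProd ⌊c * N⌋₊ g}.ncard * 2 ^ N ≤ N !) ∧
    (∀ n : ℕ, ∃ g ∈ Subgroup.closure H, ¬ IsProd n g) := by
  refine ⟨?_, exists_long, almost_all, ?_⟩
  · intro N hN
    haveI : NeZero N := ⟨by omega⟩
    refine ⟨card_CT N, ?_⟩
    intro g hg
    rw [CT_eq] at hg
    obtain ⟨σ, rfl⟩ := hg
    exact (lift_facts N σ).2
  · intro n
    obtain ⟨g, hg, hg'⟩ := exists_long (22 * n + 2) n (by omega) (by omega)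
    refine ⟨g, ?_, hg'⟩
    refine (Subgroup.closure_mono ?_ : CT (22 * n + 2) ≤ Subgroup.closure H) hg
    intro τ hτ
    exact gen_mem_H hτ

end Pool.Agent.Results.MP_9704e3_al.LinearGrowth
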